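import Mathlib

set_option autoImplicit false

/-! Pythagorean triples with equal adic data. -/

namespace Pool.Agent.H638.GP

/-- same valuations modulo `d` and same unit parts modulo `p ^ r` at the primes of `S` -/
def AdicEq (S : Finset ℕ) (d r : ℕ) (x y : ℕ) : Prop :=
  ∀ p ∈ S, x.factorization p ≡ y.factorization p [MOD d] ∧
    x / p ^ x.factorization p ≡ y / p ^ y.factorization p [MOD p ^ r]

theorem AdicEq.dilate {S : Finset ℕ} {d r k x y : ℕ} (hk : 0 < k) (hx : 0 < x)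
    (hy : 0 < y) (h : AdicEq S d r x y) : AdicEq S d r (k * x) (k * y) := by
  intro p hp
  obtain ⟨h1, h2⟩ := h p hp
  constructor
  · rw [Nat.factorization_mul hk.ne' hx.ne', Nat.factorization_mul hk.ne' hy.ne']
    exact Nat.ModEq.add_left _ h1
  · rw [Nat.ordCompl_mul, Nat.ordCompl_mul]
    exact Nat.ModEq.mul_left _ h2

theorem val_unit {p e u : ℕ} (hp : p.Prime) (hu : ¬ p ∣ u) :
    (p ^ e * u).factorization p = e ∧ (p ^ e * u) / p ^ ((p ^ e * u).factorization p) = u := by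
  have hu0 : u ≠ 0 := by rintro rfl; exact hu (dvd_zero p)
  have h1 : (p ^ e * u).factorization p = e := by
    rw [Nat.factorization_mul (pow_ne_zero _ hp.ne_zero) hu0, Finsupp.add_apply,
      Nat.factorization_eq_zero_of_not_dvd hu, hp.factorization_pow, Finsupp.single_eq_same,
      add_zero]
  refine ⟨h1, ?_⟩
  rw [h1, Nat.mul_div_cancel_left _ (pow_pos hp.pos e)]

theorem adic_triple (S : Finset ℕ) (hS : ∀ p ∈ S, p.Prime) (d r : ℕ) (hd : 0 < d) :
    ∃ x y z : ℕ, 0 < x ∧ 0 < y ∧ 0 < z ∧ x ^ 2 + y ^ 2 = z ^ 2 ∧ AdicEq S d r x y ∧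
      AdicEq S d r y z := by
  classical
  set S' : Finset ℕ := insert 2 S with hS'
  have hP : ∀ p ∈ S', p.Prime := by
    intro p hp
    rw [hS', Finset.mem_insert] at hp
    rcases hp with rfl | hp
    · exact Nat.prime_two
    · exact hS p hp
  set Q : ℕ := ∏ p ∈ S', p with hQ
  have hQ2 : 2 ∣ Q := Finset.dvd_prod_of_mem (fun p => p) (Finset.mem_insert_self 2 S)
  have hQpos : 0 < Q := Finset.prod_pos (fun p hp => (hP p hp).pos)
  set F : ℕ := ∏ q ∈ S', Nat.totient (q ^ (r + 1)) with hF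
  have hFpos : 0 < F := Finset.prod_pos
    (fun p hp => Nat.totient_pos.2 (pow_pos (hP p hp).pos _))
  set D : ℕ := d * (r + 2) * F with hD
  have hDr : r + 2 ≤ D := by
    rw [hD]
    have h1 : 1 ≤ d * F := Nat.mul_pos hd hFpos
    nlinarith
  obtain ⟨Q₀, hQ₀⟩ := hQ2
  set H : ℕ := Q ^ (D - 1) * Q₀ with hH
  have hT : 2 * H = Q ^ D := by
    rw [hH]
    have : Q ^ D = Q ^ (D - 1) * Q := by
      rw [← pow_succ]; congr 1; omega
    rw [this]
    conv_rhs => rw [hQ₀]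
    conv_lhs => rw [hQ₀]
    ring
  have hHdvd : Q ^ (r + 1) ∣ H := by
    rw [hH]
    exact Dvd.dvd.mul_right (pow_dvd_pow Q (by omega)) Q₀
  have hHpos : 0 < H := by
    have : 0 < Q ^ D := pow_pos hQpos _
    omega
  set m : ℕ := 1 + Q ^ (r + 1) * (2 * H) with hm
  have hmH : H < m := by
    rw [hm]
    have : 1 ≤ Q ^ (r + 1) := pow_pos hQpos _
    nlinarith
  obtain ⟨x, hx⟩ : ∃ x, m ^ 2 = x + H ^ 2 := ⟨m ^ 2 - H ^ 2, by
    have : H ^ 2 ≤ m ^ 2 := Nat.pow_le_pow_left hmH.le 2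
    omega⟩
  have hxpos : 0 < x := by
    have : H ^ 2 < m ^ 2 := Nat.pow_lt_pow_left hmH (by norm_num)
    omega
  have hmpos : 0 < m := by omega
  -- the data at a prime
  have key : ∀ p ∈ S', (x.factorization p = 0 ∧ x / p ^ x.factorization p ≡ 1 [MOD p ^ (r + 1)]) ∧
      ((m * (2 * H)).factorization p = D ∧
        (m * (2 * H)) / p ^ (m * (2 * H)).factorization p ≡ 1 [MOD p ^ (r + 1)]) ∧
      ((m ^ 2 + H ^ 2).factorization p = 0 ∧
        (m ^ 2 + H ^ 2) / p ^ (m ^ 2 + H ^ 2).factorization p ≡ 1 [MOD p ^ (r + 1)]) := by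
    intro p hp
    have hpp := hP p hp
    have hpQ : p ∣ Q := Finset.dvd_prod_of_mem (fun p => p) hp
    have hpr : p ^ (r + 1) ∣ Q ^ (r + 1) := pow_dvd_pow_of_dvd hpQ _
    have hm1 : m ≡ 1 [MOD p ^ (r + 1)] := by
      rw [hm]
      have : Q ^ (r + 1) * (2 * H) ≡ 0 [MOD p ^ (r + 1)] :=
        (Nat.modEq_zero_iff_dvd).2 (Dvd.dvd.mul_right hpr _)
      simpa using Nat.ModEq.add_left 1 this
    have hH0 : H ^ 2 ≡ 0 [MOD p ^ (r + 1)] :=
      (Nat.modEq_zero_iff_dvd).2 (Dvd.dvd.pow (hpr.trans hHdvd) (by norm_num))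
    have hm2 : m ^ 2 ≡ 1 [MOD p ^ (r + 1)] := by simpa using hm1.pow 2
    have hx1 : x ≡ 1 [MOD p ^ (r + 1)] := by
      have h1 : x + H ^ 2 ≡ x + 0 [MOD p ^ (r + 1)] := Nat.ModEq.add_left x hH0
      rw [← hx, add_zero] at h1
      exact h1.symm.trans hm2
    have hz1 : m ^ 2 + H ^ 2 ≡ 1 [MOD p ^ (r + 1)] := by simpa using hm2.add hH0
    have hnd : ∀ w, w ≡ 1 [MOD p ^ (r + 1)] → ¬ p ∣ w := by
      intro w hw hpw
      have h1 : w ≡ 1 [MOD p] := hw.of_dvd (dvd_pow_self p (by omega))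
      have h2 : w ≡ 0 [MOD p] := (Nat.modEq_zero_iff_dvd).2 hpw
      have h3 : p ∣ 1 := (Nat.modEq_zero_iff_dvd).1 (h1.symm.trans h2)
      exact hpp.one_lt.ne' (Nat.dvd_one.1 h3)
    have hone : ∀ w, w ≡ 1 [MOD p ^ (r + 1)] →
        w.factorization p = 0 ∧ w / p ^ w.factorization p ≡ 1 [MOD p ^ (r + 1)] := by
      intro w hw
      have h := val_unit (e := 0) hpp (hnd w hw)
      rw [pow_zero, one_mul] at h
      exact ⟨h.1, by rw [h.2]; exact hw⟩
    refine ⟨hone x hx1, ?_, hone _ hz1⟩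
    -- the even leg
    set Qp : ℕ := ∏ q ∈ S'.erase p, q with hQp
    have hQQ : Q = p * Qp := (Finset.mul_prod_erase S' (fun q => q) hp).symm
    have hcop : Nat.Coprime Qp p := by
      rw [hQp]
      refine Nat.Coprime.prod_left (fun q hq => ?_)
      rw [Finset.mem_erase] at hq
      exact (Nat.coprime_primes (hP q hq.2) hpp).2 hq.1
    have hQ1 : Qp ^ D ≡ 1 [MOD p ^ (r + 1)] := by
      have h1 : Qp ^ Nat.totient (p ^ (r + 1)) ≡ 1 [MOD p ^ (r + 1)] :=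
        Nat.ModEq.pow_totient (Nat.Coprime.pow_right _ hcop)
      obtain ⟨e, he⟩ : Nat.totient (p ^ (r + 1)) ∣ D := by
        rw [hD]
        exact Dvd.dvd.mul_left (Finset.dvd_prod_of_mem (fun q => Nat.totient (q ^ (r + 1))) hp) _
      rw [he, pow_mul]
      simpa using h1.pow e
    have hu1 : m * Qp ^ D ≡ 1 [MOD p ^ (r + 1)] := by simpa using hm1.mul hQ1
    have heq : m * (2 * H) = p ^ D * (m * Qp ^ D) := by
      rw [hT, hQQ, mul_pow]; ring
    have h := val_unit (e := D) hpp (hnd _ hu1)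
    rw [← heq] at h
    exact ⟨h.1, by rw [h.2]; exact hu1⟩
  refine ⟨x, m * (2 * H), m ^ 2 + H ^ 2, hxpos, by positivity, by positivity, ?_, ?_, ?_⟩
  · have h1 : (m ^ 2) ^ 2 = (x + H ^ 2) * m ^ 2 := by rw [← hx]; ring
    have h2 : x * x + 2 * (x * H ^ 2) + H ^ 2 * H ^ 2 = m ^ 2 * m ^ 2 := by rw [hx]; ring
    nlinarith [h1, h2, hx]
  · intro p hp
    obtain ⟨⟨a1, a2⟩, ⟨b1, b2⟩, _⟩ := key p (Finset.mem_insert_of_mem hp)
    refine ⟨?_, (a2.trans b2.symm).of_dvd (pow_dvd_pow p (Nat.le_succ r))⟩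
    rw [a1, b1]
    refine ((Nat.modEq_zero_iff_dvd).2 ?_).symm
    rw [hD, mul_assoc]; exact dvd_mul_right _ _
  · intro p hp
    obtain ⟨_, ⟨b1, b2⟩, ⟨c1, c2⟩⟩ := key p (Finset.mem_insert_of_mem hp)
    refine ⟨?_, (b2.trans c2.symm).of_dvd (pow_dvd_pow p (Nat.le_succ r))⟩
    rw [b1, c1]
    refine (Nat.modEq_zero_iff_dvd).2 ?_
    rw [hD, mul_assoc]; exact dvd_mul_right _ _

end Pool.Agent.H638.GP
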