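import Pool.Agent.H638.GP.Main

set_option autoImplicit false

/-! Limits of signs along dilates. -/

namespace Pool.Agent.H638.GP

open Filter Topology

theorem ultra_const {α G : Type*} [Finite G] (p : Ultrafilter α) (f : α → G) :
    ∃ w, ∀ᶠ k in (p : Filter α), f k = w := by
  by_contra hcon
  rw [not_exists] at hcon
  have h1 : ∀ᶠ k in (p : Filter α), ∀ w, ¬ f k = w := by
    rw [eventually_all]
    intro w
    rw [Ultrafilter.eventually_not]
    exact hcon w
  obtain ⟨k, hk⟩ := h1.exists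
  exact hk (f k) rfl

variable {p : Ultrafilter ℕ+}

theorem limit_sign (hp : Idem p) (g : Ex) : ∃ (x₀ : ℕ) (σ : SignType), ∀ x : ℕ, x₀ ≤ x →
    ∀ᶠ k : ℕ+ in (p : Filter ℕ+), SignType.sign (g.ev ((k : ℕ) * x)) = σ := by
  classical
  choose τ hτ using fun x : ℕ => ultra_const p (fun k : ℕ+ => SignType.sign (g.ev ((k : ℕ) * x)))
  obtain ⟨B, hB⟩ := signs hp g
  have hfin : {x : ℕ | τ x ≠ τ (x + 1)}.Finite := by
    by_contra hinf
    obtain ⟨r, hr⟩ : ∃ r : ℕ, {x : ℕ | τ x ≠ τ (x + 1) ∧ x % 2 = r}.Infinite := by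
      by_contra hcon
      push Not at hcon
      refine hinf (((hcon 0).union (hcon 1)).subset ?_)
      intro x hx
      rcases Nat.mod_two_eq_zero_or_one x with h | h
      · exact Or.inl ⟨hx, h⟩
      · exact Or.inr ⟨hx, h⟩
    obtain ⟨F, hF, hFc⟩ := hr.exists_subset_card_eq (B + 1)
    have hA : (1 : ℝ) ≤ ((∑ x ∈ F, x : ℕ) : ℝ) + 1 := by
      have : (0 : ℝ) ≤ ((∑ x ∈ F, x : ℕ) : ℝ) := Nat.cast_nonneg _
      linarith
    have h1 := hB _ hA
    have h2 : ∀ᶠ k : ℕ+ in (p : Filter ℕ+), ∀ x ∈ F,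
        SignType.sign (g.ev ((k : ℕ) * x)) = τ x ∧
          SignType.sign (g.ev ((k : ℕ) * (x + 1))) = τ (x + 1) := by
      rw [eventually_all_finset]
      exact fun x _ => (hτ x).and (hτ (x + 1))
    obtain ⟨k, ⟨S, hS, hS2⟩, h3⟩ := (h1.and h2).exists
    have h4 : ∀ x : F, ∃ s ∈ S, ((x : ℕ) : ℝ) ≤ s ∧ s ≤ ((x : ℕ) : ℝ) + 1 := by
      rintro ⟨x, hx⟩
      by_contra hcon
      push Not at hcon
      have hle : x ≤ ∑ x ∈ F, x := Finset.single_le_sum (f := fun x => x)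
        (fun _ _ => Nat.zero_le _) hx
      have hle' : (x : ℝ) ≤ ((∑ x ∈ F, x : ℕ) : ℝ) := by exact_mod_cast hle
      have h5 := hS2 (x : ℝ) ((x : ℝ) + 1) (Nat.cast_nonneg x) (by linarith)
        (fun s hs h => absurd h.2 (not_le.2 (hcon s hs h.1))) x (x + 1) le_rfl (by linarith)
        (by push_cast; linarith) (by push_cast; linarith)
      rw [(h3 x hx).1, (h3 x hx).2] at h5
      exact (hF hx).1 h5
    choose s hs hs2 using h4
    have hinj : Function.Injective s := by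
      rintro ⟨x, hx⟩ ⟨y, hy⟩ hxy
      have a1 := hs2 ⟨x, hx⟩
      have a2 := hs2 ⟨y, hy⟩
      rw [hxy] at a1
      simp only at a1 a2
      have b1 : (x : ℝ) ≤ y + 1 := by linarith [a1.1, a2.2]
      have b2 : (y : ℝ) ≤ x + 1 := by linarith [a1.2, a2.1]
      have c1 : x ≤ y + 1 := by exact_mod_cast b1
      have c2 : y ≤ x + 1 := by exact_mod_cast b2
      have d1 := (hF hx).2
      have d2 := (hF hy).2
      have : x = y := by omega
      exact Subtype.ext this
    have hcard : F.card ≤ S.card := by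
      have := Finset.card_le_card_of_injOn (s := (Finset.univ : Finset F)) (t := S) s
        (fun x _ => hs x) hinj.injOn
      rwa [Finset.card_univ, Fintype.card_coe] at this
    omega
  obtain ⟨N, hN⟩ := hfin.bddAbove
  refine ⟨N + 1, τ (N + 1), fun x hx => ?_⟩
  have : τ x = τ (N + 1) := by
    induction x, hx using Nat.le_induction with
    | base => rfl
    | succ n hn ih =>
      rw [← ih]
      by_contra hne
      have := hN (show n ∈ {x : ℕ | τ x ≠ τ (x + 1)} from fun h => hne h.symm)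
      omega
  rw [← this]
  exact hτ x

theorem limit_signs (hp : Idem p) {n : ℕ} (g : Fin n → Ex) :
    ∃ (x₀ : ℕ) (σ : Fin n → SignType), ∀ x : ℕ, x₀ ≤ x →
      ∀ᶠ k : ℕ+ in (p : Filter ℕ+), ∀ i, SignType.sign ((g i).ev ((k : ℕ) * x)) = σ i := by
  choose x₀ σ h using fun i => limit_sign hp (g i)
  refine ⟨∑ i, x₀ i, σ, fun x hx => ?_⟩
  rw [eventually_all]
  intro i
  refine h i x (le_trans ?_ hx)
  exact Finset.single_le_sum (f := x₀) (fun _ _ => Nat.zero_le _) (Finset.mem_univ i)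

theorem exists_good {n : ℕ} (g : Fin n → Ex) {G : Type} [Group G] [Finite G] (f : ℕ → G)
    (hf : ∀ a b, 0 < a → 0 < b → f (a * b) = f a * f b) :
    ∃ p : Ultrafilter ℕ+, Idem p ∧ ∃ σ : Fin n → SignType,
      (∀ᶠ k : ℕ+ in (p : Filter ℕ+), f (k : ℕ) = 1) ∧
      ∀ l : ℕ, 0 < l → ∀ᶠ k : ℕ+ in (p : Filter ℕ+),
        ∀ i, SignType.sign ((g i).ev (l * (k : ℕ))) = σ i := by
  obtain ⟨p, hp⟩ := exists_idem
  obtain ⟨x₀, σ, h⟩ := limit_signs hp g
  obtain ⟨w, hw⟩ := ultra_const p (fun k : ℕ+ => f (k : ℕ))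
  -- the multiplier
  obtain ⟨m, hmx, hmf⟩ : ∃ m : ℕ+, x₀ ≤ (m : ℕ) ∧ f (m : ℕ) = w⁻¹ := by
    obtain ⟨k, hk1, hk2⟩ := ((hp.large x₀).and hw).exists
    have hpow : ∀ e : ℕ, f ((k : ℕ) ^ (e + 1)) = w ^ (e + 1) := by
      intro e
      induction e with
      | zero => simpa using hk2
      | succ e ih =>
        rw [pow_succ, hf _ _ (pow_pos k.pos _) k.pos, ih, hk2, ← pow_succ]
    have hc : 0 < Nat.card G := Nat.card_pos
    refine ⟨k ^ (2 * Nat.card G - 2 + 1), ?_, ?_⟩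
    · rw [PNat.pow_coe]
      refine le_trans hk1.le ?_
      exact Nat.le_self_pow (by omega) _
    · rw [PNat.pow_coe, hpow, eq_inv_iff_mul_eq_one, ← pow_succ]
      have : 2 * Nat.card G - 2 + 1 + 1 = Nat.card G * 2 := by omega
      rw [this, pow_mul, pow_card_eq_one', one_pow]
  refine ⟨p.map (fun k : ℕ+ => m * k), ?_, σ, ?_, ?_⟩
  · intro P
    have e1 : ∀ Q : ℕ+ → Prop, (∀ᶠ k in ((p.map (fun k : ℕ+ => m * k) :
        Ultrafilter ℕ+) : Filter ℕ+), Q k) ↔
        ∀ᶠ k : ℕ+ in (p : Filter ℕ+), Q (m * k) := by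
      intro Q
      rw [Ultrafilter.coe_map, eventually_map]
    rw [e1, hp]
    simp only [e1, mul_add]
  · rw [Ultrafilter.coe_map, eventually_map]
    filter_upwards [hw] with k hk
    rw [PNat.mul_coe, hf m k m.pos k.pos, hmf, hk, inv_mul_cancel]
  · intro l hl
    rw [Ultrafilter.coe_map, eventually_map]
    filter_upwards [h (l * m) (le_trans hmx (Nat.le_mul_of_pos_left m hl))] with k hk i
    rw [PNat.mul_coe, ← hk i]
    congr 2; ring

end Pool.Agent.H638.GP
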