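import Pool.Agent.H638.GP.NF

set_option autoImplicit false

/-! Generalised polynomial colourings have monochromatic dilates of finite sets. -/

namespace Pool.Agent.H638.GP

open Filter Topology Polynomial

variable {p : Ultrafilter ℕ+}

/-- an interval without break points -/
def Free (S : Finset ℝ) (s t : ℝ) : Prop := ∀ r ∈ S, ¬ (s ≤ r ∧ r ≤ t)

theorem Free.mono {S T : Finset ℝ} {s t : ℝ} (h : S ⊆ T) (hT : Free T s t) : Free S s t :=
  fun r hr => hT r (h hr)

theorem sign_aux (P : ℝ[X]) (s t : ℝ) (h : Free P.roots.toFinset s t) (hP : P ≠ 0)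
    {x y : ℝ} (hx : s ≤ x) (hx' : x ≤ t) (hy : s ≤ y) (hy' : y ≤ t) (h1 : 0 < P.eval x) :
    0 < P.eval y := by
  by_contra hcon
  push Not at hcon
  have hc : ContinuousOn (fun z => P.eval z) (Set.uIcc x y) := P.continuous.continuousOn
  have := intermediate_value_uIcc hc
  have h0 : (0 : ℝ) ∈ Set.uIcc (P.eval x) (P.eval y) := by
    rw [Set.mem_uIcc]; right; exact ⟨hcon, h1.le⟩
  obtain ⟨z, hz, hz0⟩ := this h0
  have hz1 : s ≤ z ∧ z ≤ t := by
    rw [Set.mem_uIcc] at hz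
    rcases hz with hz | hz
    · exact ⟨hx.trans hz.1, hz.2.trans hy'⟩
    · exact ⟨hy.trans hz.1, hz.2.trans hx'⟩
  refine h z ?_ hz1
  rw [Multiset.mem_toFinset, mem_roots hP]
  exact hz0

theorem sign_const (P : ℝ[X]) (s t : ℝ) (h : Free P.roots.toFinset s t)
    {x y : ℝ} (hx : s ≤ x) (hx' : x ≤ t) (hy : s ≤ y) (hy' : y ≤ t) :
    SignType.sign (P.eval x) = SignType.sign (P.eval y) := by
  by_cases hP : P = 0
  · subst hP; simp
  have hne : ∀ z, s ≤ z → z ≤ t → P.eval z ≠ 0 := by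
    intro z h1 h2 h3
    refine h z ?_ ⟨h1, h2⟩
    rw [Multiset.mem_toFinset, mem_roots hP]
    exact h3
  rcases lt_or_gt_of_ne (hne x hx hx') with h1 | h1
  · have h2 : P.eval y < 0 := by
      rcases lt_or_gt_of_ne (hne y hy hy') with h3 | h3
      · exact h3
      · exact absurd (sign_aux P s t h hP hy hy' hx hx' h3) (not_lt.2 h1.le)
    rw [sign_neg h1, sign_neg h2]
  · have h2 := sign_aux P s t h hP hx hx' hy hy' h1
    rw [sign_pos h1, sign_pos h2]

/-- normal form -/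
def NF (p : Ultrafilter ℕ+) (g : Ex) : Prop :=
  ∃ (ι : Type) (_ : Fintype ι) (U : ι → ℕ+ → ℝ[X]) (d : ι → ℕ) (c : ι → ℝ) (B : ℕ),
    (∀ i, Good p (U i) (d i) (c i)) ∧
    ∀ A : ℝ, 1 ≤ A → ∀ᶠ k : ℕ+ in (p : Filter ℕ+), ∃ S : Finset ℝ, S.card ≤ B ∧
      ∀ s t : ℝ, 0 ≤ s → t ≤ A → Free S s t →
        ∃ i, ∀ x : ℕ, s ≤ x → (x : ℝ) ≤ t → g.ev ((k : ℕ) * x) = (U i k).eval (x : ℝ)

theorem NF.const (hp : Idem p) (c : ℝ) : NF p (Ex.const c) := by
  refine ⟨Unit, inferInstance, fun _ _ => C c, fun _ => 0, fun _ => c, 0,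
    fun _ => Good.const hp c, fun A hA => Eventually.of_forall (fun k => ⟨∅, by simp, ?_⟩)⟩
  intro s t _ _ _
  exact ⟨(), fun x _ _ => by simp [Ex.ev]⟩

theorem NF.var (hp : Idem p) : NF p Ex.var := by
  refine ⟨Unit, inferInstance, fun _ k => C (((k : ℕ) : ℝ)) * X, fun _ => 1, fun _ => 0, 0,
    fun _ => Good.var hp, fun A hA => Eventually.of_forall (fun k => ⟨∅, by simp, ?_⟩)⟩
  intro s t _ _ _
  exact ⟨(), fun x _ _ => by simp [Ex.ev]⟩

theorem NF.add (hp : Idem p) {a b : Ex} (ha : NF p a) (hb : NF p b) : NF p (Ex.add a b) := by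
  classical
  obtain ⟨ι, _, U, d, c, B, hG, hA⟩ := ha
  obtain ⟨ι', _, U', d', c', B', hG', hA'⟩ := hb
  refine ⟨ι × ι', inferInstance, fun i k => U i.1 k + U' i.2 k, fun i => max (d i.1) (d' i.2),
    fun i => c i.1 + c' i.2, B + B', fun i => (hG i.1).add hp (hG' i.2), fun A h1 => ?_⟩
  filter_upwards [hA A h1, hA' A h1] with k ⟨S, hS, h2⟩ ⟨S', hS', h3⟩
  refine ⟨S ∪ S', (Finset.card_union_le _ _).trans (add_le_add hS hS'), ?_⟩
  intro s t hs ht hF
  obtain ⟨i, hi⟩ := h2 s t hs ht (hF.mono Finset.subset_union_left)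
  obtain ⟨j, hj⟩ := h3 s t hs ht (hF.mono Finset.subset_union_right)
  refine ⟨(i, j), fun x hx hx' => ?_⟩
  simp only [Ex.ev, eval_add]
  rw [hi x hx hx', hj x hx hx']

theorem NF.mul (hp : Idem p) {a b : Ex} (ha : NF p a) (hb : NF p b) : NF p (Ex.mul a b) := by
  classical
  obtain ⟨ι, _, U, d, c, B, hG, hA⟩ := ha
  obtain ⟨ι', _, U', d', c', B', hG', hA'⟩ := hb
  refine ⟨ι × ι', inferInstance, fun i k => U i.1 k * U' i.2 k, fun i => d i.1 + d' i.2,
    fun i => c i.1 * c' i.2, B + B', fun i => (hG i.1).mul hp (hG' i.2), fun A h1 => ?_⟩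
  filter_upwards [hA A h1, hA' A h1] with k ⟨S, hS, h2⟩ ⟨S', hS', h3⟩
  refine ⟨S ∪ S', (Finset.card_union_le _ _).trans (add_le_add hS hS'), ?_⟩
  intro s t hs ht hF
  obtain ⟨i, hi⟩ := h2 s t hs ht (hF.mono Finset.subset_union_left)
  obtain ⟨j, hj⟩ := h3 s t hs ht (hF.mono Finset.subset_union_right)
  refine ⟨(i, j), fun x hx hx' => ?_⟩
  simp only [Ex.ev, eval_mul]
  rw [hi x hx hx', hj x hx hx']

theorem rnd_shift (d : ℕ) (c c' : ℝ) (P : ℝ[X]) (x : ℝ) :
    (rnd d c P).eval x = (rnd d c' P).eval x + (c - c') := by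
  unfold rnd
  rw [eval_add, eval_add, eval_C, eval_C]; ring

theorem NF.fl (hp : Idem p) {a : Ex} (ha : NF p a) : NF p (Ex.fl a) := by
  classical
  obtain ⟨ι, _, U, d, c, B, hG, hA⟩ := ha
  refine ⟨ι × Bool, inferInstance,
    fun i k => rnd (d i.1) (if i.2 then ((⌊c i.1⌋ : ℤ) : ℝ) else ((⌊c i.1⌋ - 1 : ℤ) : ℝ)) (U i.1 k),
    fun i => d i.1, fun i => if i.2 then ((⌊c i.1⌋ : ℤ) : ℝ) else ((⌊c i.1⌋ - 1 : ℤ) : ℝ),
    B + ∑ i, d i, fun i => (hG i.1).rnd hp _, fun A h1 => ?_⟩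
  have hη : ∀ i, ∃ η : ℝ, 0 < η ∧ η ≤ 1 ∧ (Int.fract (c i) ≠ 0 → η ≤ Int.fract (c i) ∧
      η ≤ 1 - Int.fract (c i)) := by
    intro i
    by_cases h : Int.fract (c i) = 0
    · exact ⟨1, one_pos, le_rfl, fun h' => absurd h h'⟩
    · have h0 : 0 < Int.fract (c i) := lt_of_le_of_ne (Int.fract_nonneg _) (Ne.symm h)
      have h1 := Int.fract_lt_one (c i)
      refine ⟨min (Int.fract (c i)) (1 - Int.fract (c i)), lt_min h0 (by linarith), ?_, fun _ =>
        ⟨min_le_left _ _, min_le_right _ _⟩⟩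
      exact (min_le_left _ _).trans h1.le
  choose η hη0 hη1 hη2 using hη
  have hE : ∀ᶠ k : ℕ+ in (p : Filter ℕ+), ∀ i, ∀ x : ℝ, 0 ≤ x → x ≤ A →
      |(err (d i) (c i) (U i k)).eval x| < η i := by
    rw [eventually_all]
    exact fun i => err_small hp (hG i) A h1 (hη0 i)
  filter_upwards [hA A h1, hE] with k ⟨S, hS, h2⟩ h3
  refine ⟨S ∪ Finset.univ.biUnion (fun i => (err (d i) (c i) (U i k)).roots.toFinset), ?_, ?_⟩
  · refine (Finset.card_union_le _ _).trans (add_le_add hS ?_)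
    refine (Finset.card_biUnion_le).trans (Finset.sum_le_sum (fun i _ => ?_))
    refine (Multiset.toFinset_card_le _).trans ((card_roots' _).trans ?_)
    unfold err
    exact (natDegree_sub_le _ _).trans (max_le ((hG i).deg k) (((hG i).rnd hp (c i)).deg k))
  · intro s t hs ht hF
    obtain ⟨i, hi⟩ := h2 s t hs ht (hF.mono Finset.subset_union_left)
    have hFr : Free (err (d i) (c i) (U i k)).roots.toFinset s t := by
      refine hF.mono (Finset.Subset.trans ?_ Finset.subset_union_right)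
      exact Finset.subset_biUnion_of_mem
        (fun i => (err (d i) (c i) (U i k)).roots.toFinset) (Finset.mem_univ i)
    -- value
    have hval : ∀ x : ℕ, (U i k).eval (x : ℝ) = (rnd (d i) ((⌊c i⌋ : ℤ) : ℝ) (U i k)).eval (x : ℝ) +
        Int.fract (c i) + (err (d i) (c i) (U i k)).eval (x : ℝ) := by
      intro x
      have e1 : (err (d i) (c i) (U i k)).eval (x : ℝ) = (U i k).eval (x : ℝ) -
          (rnd (d i) (c i) (U i k)).eval (x : ℝ) := by unfold err; rw [eval_sub]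
      rw [e1, rnd_shift (d i) (c i) ((⌊c i⌋ : ℤ) : ℝ), Int.fract]; ring
    by_cases hf : Int.fract (c i) = 0
    · -- integral constant term
      by_cases hpos : ∃ y : ℝ, s ≤ y ∧ y ≤ t ∧ 0 ≤ (err (d i) (c i) (U i k)).eval y
      · obtain ⟨y, hy1, hy2, hy3⟩ := hpos
        refine ⟨(i, true), fun x hx hx' => ?_⟩
        have hsg := sign_const _ s t hFr hx hx' hy1 hy2
        have hx0 : 0 ≤ (err (d i) (c i) (U i k)).eval (x : ℝ) := by
          rw [← sign_nonneg_iff, hsg, sign_nonneg_iff]; exact hy3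
        have hx1 := abs_lt.1 (h3 i x (Nat.cast_nonneg x) (hx'.trans ht))
        obtain ⟨m, hm⟩ := rnd_eval_int (d i) ⌊c i⌋ (U i k) x
        simp only [Ex.ev, if_true]
        rw [hi x hx hx', hval x, hm, hf]
        have : ⌊(m : ℝ) + 0 + (err (d i) (c i) (U i k)).eval (x : ℝ)⌋ = m := by
          rw [Int.floor_eq_iff]
          constructor
          · linarith
          · linarith [hη1 i, hx1.2]
        rw [this]
      · push Not at hpos
        refine ⟨(i, false), fun x hx hx' => ?_⟩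
        have hx0 := hpos x hx hx'
        have hx1 := abs_lt.1 (h3 i x (Nat.cast_nonneg x) (hx'.trans ht))
        obtain ⟨m, hm⟩ := rnd_eval_int (d i) ⌊c i⌋ (U i k) x
        simp only [Ex.ev]
        rw [hi x hx hx', hval x, hm, hf, if_neg (by simp),
          rnd_shift (d i) ((⌊c i⌋ - 1 : ℤ) : ℝ) ((⌊c i⌋ : ℤ) : ℝ), hm]
        have : ⌊(m : ℝ) + 0 + (err (d i) (c i) (U i k)).eval (x : ℝ)⌋ = m - 1 := by
          rw [Int.floor_eq_iff]
          push_cast
          constructor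
          · linarith [hη1 i, hx1.1]
          · linarith
        rw [this]; push_cast; ring
    · refine ⟨(i, true), fun x hx hx' => ?_⟩
      have hx1 := abs_lt.1 (h3 i x (Nat.cast_nonneg x) (hx'.trans ht))
      obtain ⟨m, hm⟩ := rnd_eval_int (d i) ⌊c i⌋ (U i k) x
      obtain ⟨h4, h5⟩ := hη2 i hf
      simp only [Ex.ev, if_true]
      rw [hi x hx hx', hval x, hm]
      have : ⌊(m : ℝ) + Int.fract (c i) + (err (d i) (c i) (U i k)).eval (x : ℝ)⌋ = m := by
        rw [Int.floor_eq_iff]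
        constructor
        · linarith [hx1.1]
        · linarith [hx1.2]
      rw [this]

theorem NF.all (hp : Idem p) : ∀ g : Ex, NF p g
  | .const c => NF.const hp c
  | .var => NF.var hp
  | .add a b => NF.add hp (NF.all hp a) (NF.all hp b)
  | .mul a b => NF.mul hp (NF.all hp a) (NF.all hp b)
  | .fl a => NF.fl hp (NF.all hp a)

/-- constant signs away from few break points -/
theorem signs (hp : Idem p) (g : Ex) : ∃ B : ℕ, ∀ A : ℝ, 1 ≤ A → ∀ᶠ k : ℕ+ in (p : Filter ℕ+),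
    ∃ S : Finset ℝ, S.card ≤ B ∧ ∀ s t : ℝ, 0 ≤ s → t ≤ A → Free S s t →
      ∀ x y : ℕ, s ≤ x → (x : ℝ) ≤ t → s ≤ y → (y : ℝ) ≤ t →
        SignType.sign (g.ev ((k : ℕ) * x)) = SignType.sign (g.ev ((k : ℕ) * y)) := by
  classical
  obtain ⟨ι, _, U, d, c, B, hG, hA⟩ := NF.all hp g
  refine ⟨B + ∑ i, d i, fun A h1 => ?_⟩
  filter_upwards [hA A h1] with k ⟨S, hS, h2⟩
  refine ⟨S ∪ Finset.univ.biUnion (fun i => (U i k).roots.toFinset), ?_, ?_⟩
  · refine (Finset.card_union_le _ _).trans (add_le_add hS ?_)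
    refine (Finset.card_biUnion_le).trans (Finset.sum_le_sum (fun i _ => ?_))
    exact (Multiset.toFinset_card_le _).trans ((card_roots' _).trans ((hG i).deg k))
  · intro s t hs ht hF x y hx hx' hy hy'
    obtain ⟨i, hi⟩ := h2 s t hs ht (hF.mono Finset.subset_union_left)
    have hFr : Free (U i k).roots.toFinset s t := by
      refine hF.mono (Finset.Subset.trans ?_ Finset.subset_union_right)
      exact Finset.subset_biUnion_of_mem (fun i => (U i k).roots.toFinset) (Finset.mem_univ i)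
    rw [hi x hx hx', hi y hy hy']
    exact sign_const _ s t hFr hx hx' hy hy'

theorem main {n : ℕ} (g : Fin n → Ex) (M K : ℕ) (hM : 1 ≤ M) :
    ∃ k : ℕ, K < k ∧ ∀ i, ∀ a b : ℕ, 1 ≤ a → a ≤ M → 1 ≤ b → b ≤ M →
      SignType.sign ((g i).ev (k * a)) = SignType.sign ((g i).ev (k * b)) := by
  classical
  obtain ⟨p, hp⟩ := exists_idem
  have h := fun i => signs hp (g i)
  choose B hB using h
  set N : ℕ := ∑ i, B i with hN
  set R : ℕ := M + 1 with hR
  set A : ℝ := (R : ℝ) ^ N * M with hA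
  have hR1 : (1 : ℝ) ≤ R := by rw [hR]; push_cast; linarith [(Nat.cast_nonneg M : (0 : ℝ) ≤ M)]
  have hM1 : (1 : ℝ) ≤ M := by exact_mod_cast hM
  have hA1 : 1 ≤ A := by
    have := one_le_pow₀ hR1 (n := N)
    nlinarith
  have hE : ∀ᶠ k : ℕ+ in (p : Filter ℕ+), ∀ i, ∃ S : Finset ℝ, S.card ≤ B i ∧ ∀ s t : ℝ, 0 ≤ s →
      t ≤ A → Free S s t → ∀ x y : ℕ, s ≤ x → (x : ℝ) ≤ t → s ≤ y → (y : ℝ) ≤ t →
        SignType.sign ((g i).ev ((k : ℕ) * x)) = SignType.sign ((g i).ev ((k : ℕ) * y)) := by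
    rw [eventually_all]
    exact fun i => hB i A hA1
  obtain ⟨k, hk1, hk2⟩ := ((hp.large K).and hE).exists
  choose S hS hS2 using hk2
  set T : Finset ℝ := Finset.univ.biUnion S with hT
  have hTc : T.card ≤ N := by
    refine (Finset.card_biUnion_le).trans (Finset.sum_le_sum (fun i _ => hS i))
  obtain ⟨e, he, hFree⟩ : ∃ e : ℕ, e ≤ N ∧ Free T ((R : ℝ) ^ e) ((R : ℝ) ^ e * M) := by
    by_contra hcon
    push Not at hcon
    have h1 : ∀ e : Fin (N + 1), ∃ r ∈ T, (R : ℝ) ^ (e : ℕ) ≤ r ∧ r ≤ (R : ℝ) ^ (e : ℕ) * M := by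
      intro e
      have h2 := hcon e (Nat.lt_succ_iff.1 e.2)
      unfold Free at h2
      push Not at h2
      obtain ⟨r, hr, hr2⟩ := h2
      exact ⟨r, hr, hr2.1, hr2.2⟩
    choose f hf hf2 using h1
    have hinj : Function.Injective f := by
      have key : ∀ e e' : Fin (N + 1), e < e' → f e < f e' := by
        intro e e' hee
        have h3 : (R : ℝ) ^ ((e : ℕ) + 1) ≤ (R : ℝ) ^ (e' : ℕ) :=
          pow_le_pow_right₀ hR1 hee
        have h4 := (hf2 e).2
        have h5 := (hf2 e').1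
        have h6 : (R : ℝ) ^ (e : ℕ) * M < (R : ℝ) ^ ((e : ℕ) + 1) := by
          rw [pow_succ]
          have : (M : ℝ) < R := by rw [hR]; push_cast; linarith
          have hpos : (0 : ℝ) < (R : ℝ) ^ (e : ℕ) := by positivity
          nlinarith
        linarith
      intro e e' heq
      rcases lt_trichotomy e e' with h3 | h3 | h3
      · exact absurd heq (key e e' h3).ne
      · exact h3
      · exact absurd heq.symm (key e' e h3).ne
    have hcard := Finset.card_le_card_of_injOn (s := (Finset.univ : Finset (Fin (N + 1)))) (t := T) f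
      (fun e _ => hf e) (hinj.injOn)
    rw [Finset.card_univ, Fintype.card_fin] at hcard
    omega
  refine ⟨(k : ℕ) * R ^ e, ?_, ?_⟩
  · have : 1 ≤ R ^ e := Nat.one_le_pow _ _ (by omega)
    nlinarith [k.pos]
  · intro i a b ha ha' hb hb'
    have hmul : ∀ c : ℕ, (k : ℕ) * R ^ e * c = (k : ℕ) * (R ^ e * c) := fun c => by ring
    rw [hmul a, hmul b]
    have hRe : (0 : ℝ) < (R : ℝ) ^ e := by positivity
    refine hS2 i ((R : ℝ) ^ e) ((R : ℝ) ^ e * M) hRe.le ?_ ?_ _ _ ?_ ?_ ?_ ?_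
    · rw [hA]
      exact mul_le_mul_of_nonneg_right (pow_le_pow_right₀ hR1 he) (by positivity)
    · exact hFree.mono (Finset.subset_biUnion_of_mem S (Finset.mem_univ i))
    · push_cast
      have : (1 : ℝ) ≤ a := by exact_mod_cast ha
      nlinarith
    · push_cast
      have : (a : ℝ) ≤ M := by exact_mod_cast ha'
      nlinarith
    · push_cast
      have : (1 : ℝ) ≤ b := by exact_mod_cast hb
      nlinarith
    · push_cast
      have : (b : ℝ) ≤ M := by exact_mod_cast hb'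
      nlinarith

end Pool.Agent.H638.GP
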