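import Pool.Agent.H638.GP.Rec

set_option autoImplicit false

/-! Normal form of generalised polynomials on dilates. -/

namespace Pool.Agent.H638.GP

open Filter Topology Polynomial

/-- generalised polynomial expressions in one variable -/
inductive Ex : Type
  | const (c : ℝ) : Ex
  | var : Ex
  | add (a b : Ex) : Ex
  | mul (a b : Ex) : Ex
  | fl (a : Ex) : Ex

/-- value -/
noncomputable def Ex.ev : Ex → ℕ → ℝ
  | .const c, _ => c
  | .var, n => n
  | .add a b, n => a.ev n + b.ev n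
  | .mul a b, n => a.ev n * b.ev n
  | .fl a, n => (⌊a.ev n⌋ : ℝ)

/-- some degree -/
def Pp (p : Ultrafilter ℕ+) (v : ℕ+ → ℝ) : Prop := ∃ d, Pd p d v

variable {p : Ultrafilter ℕ+}

theorem Pp.congr (hp : Idem p) {v w : ℕ+ → ℝ} (h : ∀ k, v k = w k) (hv : Pp p v) : Pp p w := by
  obtain ⟨d, hd⟩ := hv
  exact ⟨d, Pd.congr hp (Eventually.of_forall h) hd⟩

theorem Pp.add (hp : Idem p) {v w : ℕ+ → ℝ} (hv : Pp p v) (hw : Pp p w) :
    Pp p (fun k => v k + w k) := by
  obtain ⟨d, hd⟩ := hv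
  obtain ⟨e, he⟩ := hw
  exact ⟨max d e, Pd.add hp (Pd.mono hp (le_max_left _ _) hd) (Pd.mono hp (le_max_right _ _) he)⟩

theorem Pp.mul (hp : Idem p) {v w : ℕ+ → ℝ} (hv : Pp p v) (hw : Pp p w) :
    Pp p (fun k => v k * w k) := by
  obtain ⟨d, hd⟩ := hv
  obtain ⟨e, he⟩ := hw
  exact ⟨d + e, Pd.mul hp hd he⟩

theorem Pp.smul (hp : Idem p) {v : ℕ+ → ℝ} (c : ℝ) (hv : Pp p v) :
    Pp p (fun k => c * v k) := by
  obtain ⟨d, hd⟩ := hv
  exact ⟨d, Pd.smul hp c hd⟩

theorem Pp.zero (hp : Idem p) : Pp p (fun _ => 0) := ⟨0, Pd.zero' hp 0⟩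

theorem Pp.round (hp : Idem p) {v : ℕ+ → ℝ} (hv : Pp p v) :
    Pp p (fun k => ((_root_.round (v k) : ℤ) : ℝ)) := by
  obtain ⟨d, hd⟩ := hv
  exact ⟨d, Pd.round hp hd⟩

theorem Pp.sum (hp : Idem p) {ι : Type} (s : Finset ι) (f : ι → ℕ+ → ℝ)
    (h : ∀ i ∈ s, Pp p (f i)) : Pp p (fun k => ∑ i ∈ s, f i k) := by
  classical
  induction s using Finset.induction_on with
  | empty => simpa using Pp.zero hp
  | insert a s ha ih =>
    have h1 := h a (Finset.mem_insert_self _ _)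
    have h2 := ih (fun i hi => h i (Finset.mem_insert_of_mem hi))
    refine Pp.congr hp (fun k => ?_) (Pp.add hp h1 h2)
    rw [Finset.sum_insert ha]

/-- admissible polynomial-valued functions -/
structure Good (p : Ultrafilter ℕ+) (U : ℕ+ → ℝ[X]) (d : ℕ) (c : ℝ) : Prop where
  deg : ∀ k, (U k).natDegree ≤ d
  c0 : ∀ k, (U k).coeff 0 = c
  cj : ∀ j, 1 ≤ j → Pp p (fun k => (U k).coeff j)

theorem Good.const (hp : Idem p) (c : ℝ) : Good p (fun _ => C c) 0 c where
  deg k := by simp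
  c0 k := by simp
  cj j hj := by
    refine Pp.congr hp (fun k => ?_) (Pp.zero hp)
    rw [coeff_C, if_neg (by omega)]

theorem Good.var (hp : Idem p) : Good p (fun k => C (((k : ℕ) : ℝ)) * X) 1 0 where
  deg k := by
    refine (natDegree_C_mul_le _ _).trans ?_
    simp
  c0 k := by simp
  cj j hj := by
    rcases Nat.lt_or_ge 1 j with h | h
    · refine Pp.congr hp (fun k => ?_) (Pp.zero hp)
      rw [coeff_C_mul, coeff_X, if_neg (by omega)]; simp
    · obtain rfl : j = 1 := by omega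
      refine Pp.congr hp (fun k => ?_) ⟨1, Pd.id' hp⟩
      simp

theorem Good.add (hp : Idem p) {U V : ℕ+ → ℝ[X]} {d e : ℕ} {c c' : ℝ} (hU : Good p U d c)
    (hV : Good p V e c') : Good p (fun k => U k + V k) (max d e) (c + c') where
  deg k := (natDegree_add_le _ _).trans (max_le_max (hU.deg k) (hV.deg k))
  c0 k := by rw [coeff_add, hU.c0, hV.c0]
  cj j hj := by
    refine Pp.congr hp (fun k => ?_) (Pp.add hp (hU.cj j hj) (hV.cj j hj))
    rw [coeff_add]

theorem Good.mul (hp : Idem p) {U V : ℕ+ → ℝ[X]} {d e : ℕ} {c c' : ℝ} (hU : Good p U d c)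
    (hV : Good p V e c') : Good p (fun k => U k * V k) (d + e) (c * c') where
  deg k := natDegree_mul_le.trans (add_le_add (hU.deg k) (hV.deg k))
  c0 k := by rw [mul_coeff_zero, hU.c0, hV.c0]
  cj j hj := by
    have := Pp.sum hp (Finset.HasAntidiagonal.antidiagonal j)
      (fun x k => (U k).coeff x.1 * (V k).coeff x.2) ?_
    · refine Pp.congr hp (fun k => ?_) this
      rw [coeff_mul]
    · intro x hx
      rw [Finset.HasAntidiagonal.mem_antidiagonal] at hx
      rcases Nat.eq_zero_or_pos x.1 with h1 | h1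
      · refine Pp.congr hp (fun k => ?_) (Pp.smul hp c (hV.cj x.2 (by omega)))
        rw [h1, hU.c0]
      rcases Nat.eq_zero_or_pos x.2 with h2 | h2
      · refine Pp.congr hp (fun k => ?_) (Pp.smul hp c' (hU.cj x.1 h1))
        rw [h2, hV.c0]; ring
      · exact Pp.mul hp (hU.cj x.1 h1) (hV.cj x.2 h2)

/-- rounding of the coefficients -/
noncomputable def rnd (d : ℕ) (c : ℝ) (P : ℝ[X]) : ℝ[X] :=
  C c + ∑ j ∈ Finset.Icc 1 d, monomial j ((round (P.coeff j) : ℤ) : ℝ)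

theorem rnd_coeff (d : ℕ) (c : ℝ) (P : ℝ[X]) (j : ℕ) : (rnd d c P).coeff j =
    if j = 0 then c else if j ≤ d then ((round (P.coeff j) : ℤ) : ℝ) else 0 := by
  unfold rnd
  rw [coeff_add, finsetSum_coeff, coeff_C]
  simp only [coeff_monomial]
  rw [Finset.sum_ite_eq' (Finset.Icc 1 d) j]
  rcases Nat.eq_zero_or_pos j with h | h
  · subst h; simp
  · have hj0 : j ≠ 0 := by omega
    simp only [Finset.mem_Icc]
    by_cases h2 : j ≤ d
    · have h3 : 1 ≤ j ∧ j ≤ d := ⟨h, h2⟩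
      simp [hj0, h2, h3]
    · have h3 : ¬ (1 ≤ j ∧ j ≤ d) := fun h3 => h2 h3.2
      simp [hj0, h2, h3]

theorem Good.rnd (hp : Idem p) {U : ℕ+ → ℝ[X]} {d : ℕ} {c : ℝ} (hU : Good p U d c) (c' : ℝ) :
    Good p (fun k => GP.rnd d c' (U k)) d c' where
  deg k := by
    rw [natDegree_le_iff_coeff_eq_zero]
    intro N hN
    rw [rnd_coeff, if_neg (by omega), if_neg (by omega)]
  c0 k := by rw [rnd_coeff, if_pos rfl]
  cj j hj := by
    by_cases h2 : j ≤ d
    · refine Pp.congr hp (fun k => ?_) (Pp.round hp (hU.cj j hj))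
      rw [rnd_coeff, if_neg (by omega), if_pos h2]
    · refine Pp.congr hp (fun k => ?_) (Pp.zero hp)
      rw [rnd_coeff, if_neg (by omega), if_neg h2]

/-- the error polynomial -/
noncomputable def err (d : ℕ) (c : ℝ) (P : ℝ[X]) : ℝ[X] := P - rnd d c P

theorem rnd_eval_int (d : ℕ) (z : ℤ) (P : ℝ[X]) (x : ℕ) :
    ∃ m : ℤ, (rnd d z P).eval (x : ℝ) = m := by
  unfold rnd
  rw [eval_add, eval_C, eval_finsetSum]
  simp only [eval_monomial]
  refine ⟨z + ∑ j ∈ Finset.Icc 1 d, (round (P.coeff j)) * (x : ℤ) ^ j, ?_⟩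
  push_cast; rfl

theorem err_small (hp : Idem p) {U : ℕ+ → ℝ[X]} {d : ℕ} {c : ℝ} (hU : Good p U d c)
    (A : ℝ) (hA : 1 ≤ A) {η : ℝ} (hη : 0 < η) :
    ∀ᶠ k in (p : Filter ℕ+), ∀ x : ℝ, 0 ≤ x → x ≤ A → |(err d c (U k)).eval x| < η := by
  set δ : ℝ := η / ((d + 1) * A ^ d) with hδ
  have hδp : 0 < δ := by positivity
  have h1 : ∀ᶠ k in (p : Filter ℕ+), ∀ j ∈ Finset.Icc 1 d,
      |(U k).coeff j - round ((U k).coeff j)| < δ := by
    rw [eventually_all_finset]
    intro j hj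
    obtain ⟨e, he⟩ := hU.cj j (Finset.mem_Icc.1 hj).1
    exact Pd.near hp he hδp
  filter_upwards [h1] with k hk x hx0 hxA
  have hdeg : (err d c (U k)).natDegree < d + 1 := by
    refine Nat.lt_succ_of_le ?_
    unfold err
    refine (natDegree_sub_le _ _).trans (max_le (hU.deg k) ((hU.rnd hp c).deg k))
  rw [eval_eq_sum_range' hdeg]
  have hterm : ∀ j ∈ Finset.range (d + 1), |(err d c (U k)).coeff j * x ^ j| ≤
      (if j = 0 then 0 else δ) * A ^ d := by
    intro j hj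
    rw [Finset.mem_range] at hj
    unfold err
    rw [coeff_sub, rnd_coeff]
    rcases Nat.eq_zero_or_pos j with h | h
    · subst h
      rw [if_pos rfl, hU.c0]; simp
    · have hj0 : j ≠ 0 := by omega
      have hjd : j ≤ d := by omega
      rw [if_neg hj0, if_neg hj0, if_pos hjd, abs_mul]
      refine mul_le_mul (hk j (Finset.mem_Icc.2 ⟨h, by omega⟩)).le ?_ (abs_nonneg _) hδp.le
      rw [abs_of_nonneg (pow_nonneg hx0 _)]
      exact (pow_le_pow_left₀ hx0 hxA j).trans (pow_le_pow_right₀ hA (by omega))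
  refine lt_of_le_of_lt ((Finset.abs_sum_le_sum_abs _ _).trans (Finset.sum_le_sum hterm)) ?_
  rw [← Finset.sum_mul, Finset.sum_range_succ']
  simp only [Nat.add_eq_zero_iff, one_ne_zero, and_false, if_false, if_true, Finset.sum_const,
    Finset.card_range, nsmul_eq_mul, add_zero]
  have h2 : (d : ℝ) * δ * A ^ d = η * (d / (d + 1)) := by
    rw [hδ]; field_simp
  rw [h2]
  have h3 : (d : ℝ) / (d + 1) < 1 := by
    rw [div_lt_one (by positivity)]; linarith
  nlinarith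

end Pool.Agent.H638.GP
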