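import Mathlib

set_option autoImplicit false

/-! Recurrence of constant-free generalised polynomials along an idempotent ultrafilter. -/

namespace Pool.Agent.H638.GP

open Filter Topology

/-- idempotency of an ultrafilter on the positive integers -/
def Idem (p : Ultrafilter ℕ+) : Prop :=
  ∀ P : ℕ+ → Prop, (∀ᶠ m in (p : Filter ℕ+), P m) ↔
    ∀ᶠ l in (p : Filter ℕ+), ∀ᶠ k in (p : Filter ℕ+), P (l + k)

attribute [local instance] Ultrafilter.add Ultrafilter.addSemigroup

theorem exists_idem : ∃ p : Ultrafilter ℕ+, Idem p := by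
  have := @exists_idempotent_of_compact_t2_of_continuous_add_left (Ultrafilter ℕ+) _ _ _ _ _
    Ultrafilter.continuous_add_left
  obtain ⟨U, hU⟩ := this
  refine ⟨U, fun P => ?_⟩
  conv_lhs => rw [← hU]
  exact Ultrafilter.eventually_add U U P

/-- polynomial-like functions along `p`, of degree at most `d`, without constant term -/
def Pd (p : Ultrafilter ℕ+) : ℕ → (ℕ+ → ℝ) → Prop
  | 0, v => ∀ᶠ k in (p : Filter ℕ+), v k = 0
  | d + 1, v => ∀ᶠ l in (p : Filter ℕ+), Pd p d (fun k => v (l + k) - v k - v l)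

variable {p : Ultrafilter ℕ+}

theorem Pd.congr (hp : Idem p) : ∀ {d : ℕ} {v w : ℕ+ → ℝ},
    (∀ᶠ k in (p : Filter ℕ+), v k = w k) → Pd p d v → Pd p d w
  | 0, v, w, h, hv => by
    filter_upwards [h, hv] with k h1 h2
    rw [← h1, h2]
  | d + 1, v, w, h, hv => by
    have h' := (hp _).1 h
    show ∀ᶠ l in (p : Filter ℕ+), Pd p d (fun k => w (l + k) - w k - w l)
    filter_upwards [h, h', hv] with l h1 h2 h3
    refine Pd.congr hp ?_ h3
    filter_upwards [h, h2] with k h4 h5
    rw [h1, h4, h5]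

theorem Pd.succ (hp : Idem p) : ∀ {d : ℕ} {v : ℕ+ → ℝ}, Pd p d v → Pd p (d + 1) v
  | 0, v, hv => by
    have h' := (hp _).1 hv
    show ∀ᶠ l in (p : Filter ℕ+), Pd p 0 (fun k => v (l + k) - v k - v l)
    filter_upwards [hv, h'] with l h1 h2
    show ∀ᶠ k in (p : Filter ℕ+), v (l + k) - v k - v l = 0
    filter_upwards [hv, h2] with k h3 h4
    rw [h1, h3, h4]; ring
  | d + 1, v, hv => by
    show ∀ᶠ l in (p : Filter ℕ+), Pd p (d + 1) (fun k => v (l + k) - v k - v l)
    have hv' : ∀ᶠ l in (p : Filter ℕ+), Pd p d (fun k => v (l + k) - v k - v l) := hv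
    filter_upwards [hv'] with l h1
    exact Pd.succ hp h1

theorem Pd.mono (hp : Idem p) {d e : ℕ} (h : d ≤ e) {v : ℕ+ → ℝ} (hv : Pd p d v) : Pd p e v := by
  induction e, h using Nat.le_induction with
  | base => exact hv
  | succ n _ ih => exact Pd.succ hp ih

theorem Pd.add (hp : Idem p) : ∀ {d : ℕ} {v w : ℕ+ → ℝ}, Pd p d v → Pd p d w →
    Pd p d (fun k => v k + w k)
  | 0, v, w, hv, hw => by
    show ∀ᶠ k in (p : Filter ℕ+), v k + w k = 0
    have hv' : ∀ᶠ k in (p : Filter ℕ+), v k = 0 := hv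
    have hw' : ∀ᶠ k in (p : Filter ℕ+), w k = 0 := hw
    filter_upwards [hv', hw'] with k h1 h2
    rw [h1, h2]; ring
  | d + 1, v, w, hv, hw => by
    show ∀ᶠ l in (p : Filter ℕ+), Pd p d (fun k => (v (l + k) + w (l + k)) - (v k + w k) -
      (v l + w l))
    have hv' : ∀ᶠ l in (p : Filter ℕ+), Pd p d (fun k => v (l + k) - v k - v l) := hv
    have hw' : ∀ᶠ l in (p : Filter ℕ+), Pd p d (fun k => w (l + k) - w k - w l) := hw
    filter_upwards [hv', hw'] with l h1 h2
    refine Pd.congr hp ?_ (Pd.add hp h1 h2)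
    exact Eventually.of_forall (fun k => by ring)

theorem Pd.smul (hp : Idem p) : ∀ {d : ℕ} {v : ℕ+ → ℝ} (c : ℝ), Pd p d v →
    Pd p d (fun k => c * v k)
  | 0, v, c, hv => by
    show ∀ᶠ k in (p : Filter ℕ+), c * v k = 0
    have hv' : ∀ᶠ k in (p : Filter ℕ+), v k = 0 := hv
    filter_upwards [hv'] with k h1
    rw [h1]; ring
  | d + 1, v, c, hv => by
    show ∀ᶠ l in (p : Filter ℕ+), Pd p d (fun k => c * v (l + k) - c * v k - c * v l)
    have hv' : ∀ᶠ l in (p : Filter ℕ+), Pd p d (fun k => v (l + k) - v k - v l) := hv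
    filter_upwards [hv'] with l h1
    refine Pd.congr hp ?_ (Pd.smul hp c h1)
    exact Eventually.of_forall (fun k => by ring)

theorem Pd.zero' (hp : Idem p) (d : ℕ) : Pd p d (fun _ => (0 : ℝ)) :=
  Pd.mono hp (Nat.zero_le d) (show ∀ᶠ _ in (p : Filter ℕ+), (0 : ℝ) = 0 from
    Eventually.of_forall (fun _ => rfl))

theorem Pd.mul_aux (hp : Idem p) : ∀ (n : ℕ) {d e : ℕ} {u v : ℕ+ → ℝ}, d + e ≤ n →
    Pd p d u → Pd p e v → Pd p (d + e) (fun k => u k * v k) := by
  intro n
  induction n with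
  | zero =>
    intro d e u v h hu hv
    obtain rfl : d = 0 := by omega
    obtain rfl : e = 0 := by omega
    show ∀ᶠ k in (p : Filter ℕ+), u k * v k = 0
    have hu' : ∀ᶠ k in (p : Filter ℕ+), u k = 0 := hu
    filter_upwards [hu'] with k h1
    rw [h1]; ring
  | succ n ih =>
    intro d e u v h hu hv
    rcases d with _ | d
    · refine Pd.mono hp (Nat.zero_le _) ?_
      show ∀ᶠ k in (p : Filter ℕ+), u k * v k = 0
      have hu' : ∀ᶠ k in (p : Filter ℕ+), u k = 0 := hu
      filter_upwards [hu'] with k h1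
      rw [h1]; ring
    rcases e with _ | e
    · refine Pd.mono hp (Nat.zero_le _) ?_
      show ∀ᶠ k in (p : Filter ℕ+), u k * v k = 0
      have hv' : ∀ᶠ k in (p : Filter ℕ+), v k = 0 := hv
      filter_upwards [hv'] with k h1
      rw [h1]; ring
    have hu' : ∀ᶠ l in (p : Filter ℕ+), Pd p d (fun k => u (l + k) - u k - u l) := hu
    have hv' : ∀ᶠ l in (p : Filter ℕ+), Pd p e (fun k => v (l + k) - v k - v l) := hv
    have e1 : d + 1 + (e + 1) = (d + e + 1) + 1 := by ring
    rw [e1]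
    show ∀ᶠ l in (p : Filter ℕ+), Pd p (d + e + 1) (fun k => u (l + k) * v (l + k) - u k * v k -
      u l * v l)
    filter_upwards [hu', hv'] with l h1 h2
    have t1 : Pd p (d + e + 1) (fun k => v l * u k) :=
      Pd.mono hp (by omega) (Pd.smul hp (v l) hu)
    have t2 : Pd p (d + e + 1) (fun k => u k * (v (l + k) - v k - v l)) := by
      have := ih (d := d + 1) (e := e) (by omega) hu h2
      exact Pd.mono hp (by omega) this
    have t3 : Pd p (d + e + 1) (fun k => u l * v k) :=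
      Pd.mono hp (by omega) (Pd.smul hp (u l) hv)
    have t4 : Pd p (d + e + 1) (fun k => u l * (v (l + k) - v k - v l)) :=
      Pd.mono hp (by omega) (Pd.smul hp (u l) h2)
    have t5 : Pd p (d + e + 1) (fun k => (u (l + k) - u k - u l) * v k) := by
      have := ih (d := d) (e := e + 1) (by omega) h1 hv
      exact Pd.mono hp (by omega) this
    have t6 : Pd p (d + e + 1) (fun k => v l * (u (l + k) - u k - u l)) :=
      Pd.mono hp (by omega) (Pd.smul hp (v l) h1)
    have t7 : Pd p (d + e + 1) (fun k => (u (l + k) - u k - u l) * (v (l + k) - v k - v l)) := by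
      have := ih (d := d) (e := e) (by omega) h1 h2
      exact Pd.mono hp (by omega) this
    have := Pd.add hp (Pd.add hp (Pd.add hp t1 t2) (Pd.add hp t3 t4))
      (Pd.add hp (Pd.add hp t5 t6) t7)
    refine Pd.congr hp ?_ this
    exact Eventually.of_forall (fun k => by ring)

theorem Pd.mul (hp : Idem p) {d e : ℕ} {u v : ℕ+ → ℝ} (hu : Pd p d u) (hv : Pd p e v) :
    Pd p (d + e) (fun k => u k * v k) := Pd.mul_aux hp (d + e) le_rfl hu hv

/-- recurrence in the circle -/
theorem Pd.tendsto (hp : Idem p) : ∀ {d : ℕ} {v : ℕ+ → ℝ}, Pd p d v →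
    Tendsto (fun k => ((v k : ℝ) : UnitAddCircle)) (p : Filter ℕ+) (𝓝 0)
  | 0, v, hv => by
    have hv' : ∀ᶠ k in (p : Filter ℕ+), v k = 0 := hv
    refine tendsto_nhds_of_eventually_eq ?_
    filter_upwards [hv'] with k h1
    rw [h1]; rfl
  | d + 1, v, hv => by
    have hv' : ∀ᶠ l in (p : Filter ℕ+), Pd p d (fun k => v (l + k) - v k - v l) := hv
    obtain ⟨L, hL⟩ : ∃ L : UnitAddCircle,
        Tendsto (fun k => ((v k : ℝ) : UnitAddCircle)) (p : Filter ℕ+) (𝓝 L) := by
      have := (isCompact_univ (X := UnitAddCircle)).ultrafilter_le_nhds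
        (p.map (fun k => ((v k : ℝ) : UnitAddCircle))) (by simp)
      obtain ⟨L, -, hL⟩ := this
      exact ⟨L, hL⟩
    have hlim : ∀ᶠ l in (p : Filter ℕ+),
        Tendsto (fun k => ((v (l + k) : ℝ) : UnitAddCircle)) (p : Filter ℕ+)
          (𝓝 (L + ((v l : ℝ) : UnitAddCircle))) := by
      filter_upwards [hv'] with l h1
      have h2 := Pd.tendsto hp h1
      have h3 := (h2.add hL).add_const ((v l : ℝ) : UnitAddCircle)
      rw [zero_add] at h3
      refine h3.congr (fun k => ?_)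
      rw [← AddCircle.coe_add, ← AddCircle.coe_add]
      congr 1; ring
    have hLL : L = L + L := by
      by_contra hne
      obtain ⟨U, V, hU, hV, hLU, hLV, hUV⟩ := t2_separation hne
      have hW : ∀ᶠ m in (p : Filter ℕ+), ((v m : ℝ) : UnitAddCircle) ∈ U :=
        hL (hU.mem_nhds hLU)
      have hW2 := (hp _).1 hW
      have h5 : Tendsto (fun l => L + ((v l : ℝ) : UnitAddCircle)) (p : Filter ℕ+) (𝓝 (L + L)) :=
        hL.const_add L
      have h6 : ∀ᶠ l in (p : Filter ℕ+), L + ((v l : ℝ) : UnitAddCircle) ∈ V :=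
        h5 (hV.mem_nhds hLV)
      obtain ⟨l, ha, hb, hc⟩ := (hW2.and (hlim.and h6)).exists
      have h7 : ∀ᶠ k in (p : Filter ℕ+), ((v (l + k) : ℝ) : UnitAddCircle) ∈ V :=
        hb (hV.mem_nhds hc)
      obtain ⟨k, hk1, hk2⟩ := (ha.and h7).exists
      exact Set.disjoint_left.1 hUV hk1 hk2
    have : L = 0 := by
      have h := hLL
      rw [left_eq_add] at h
      exact h
    rw [← this]; exact hL

theorem Pd.near (hp : Idem p) {d : ℕ} {v : ℕ+ → ℝ} (hv : Pd p d v) {ε : ℝ} (hε : 0 < ε) :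
    ∀ᶠ k in (p : Filter ℕ+), |v k - round (v k)| < ε := by
  have h := Pd.tendsto hp hv
  rw [tendsto_zero_iff_norm_tendsto_zero] at h
  have h2 := h.eventually (gt_mem_nhds hε)
  filter_upwards [h2] with k hk
  rwa [UnitAddCircle.norm_eq] at hk

theorem round_eq_of_near {x : ℝ} {n : ℤ} (h : |x - n| < 1 / 2) : round x = n := by
  rw [abs_lt] at h
  rw [round_eq, Int.floor_eq_iff]
  constructor <;> linarith [h.1, h.2]

theorem Pd.round (hp : Idem p) : ∀ {d : ℕ} {v : ℕ+ → ℝ}, Pd p d v →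
    Pd p d (fun k => ((round (v k) : ℤ) : ℝ))
  | 0, v, hv => by
    have hv' : ∀ᶠ k in (p : Filter ℕ+), v k = 0 := hv
    show ∀ᶠ k in (p : Filter ℕ+), ((_root_.round (v k) : ℤ) : ℝ) = 0
    filter_upwards [hv'] with k h1
    rw [h1]; simp
  | d + 1, v, hv => by
    have hv' : ∀ᶠ l in (p : Filter ℕ+), Pd p d (fun k => v (l + k) - v k - v l) := hv
    show ∀ᶠ l in (p : Filter ℕ+), Pd p d (fun k => ((_root_.round (v (l + k)) : ℤ) : ℝ) -
      ((_root_.round (v k) : ℤ) : ℝ) - ((_root_.round (v l) : ℤ) : ℝ))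
    have hn := Pd.near hp hv (ε := 1 / 8) (by norm_num)
    filter_upwards [hv', hn] with l h1 h2
    have h3 := Pd.round hp h1
    have h4 := Pd.near hp h1 (ε := 1 / 8) (by norm_num)
    refine Pd.congr hp ?_ h3
    filter_upwards [hn, h4] with k h5 h6
    have h7 : _root_.round (v (l + k)) = _root_.round (v (l + k) - v k - v l) + _root_.round (v k)
        + _root_.round (v l) := by
      apply round_eq_of_near
      push_cast
      rw [abs_lt] at h2 h5 h6 ⊢
      constructor <;> linarith [h2.1, h2.2, h5.1, h5.2, h6.1, h6.2]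
    rw [h7]; push_cast; ring

theorem Pd.id' (hp : Idem p) : Pd p 1 (fun k : ℕ+ => ((k : ℕ) : ℝ)) := by
  show ∀ᶠ l in (p : Filter ℕ+), ∀ᶠ k in (p : Filter ℕ+), (((l + k : ℕ+) : ℕ) : ℝ) - ((k : ℕ) : ℝ) -
    ((l : ℕ) : ℝ) = 0
  refine Eventually.of_forall (fun l => Eventually.of_forall (fun k => ?_))
  push_cast; ring

/-- `p` is not principal -/
theorem Idem.large (hp : Idem p) (K : ℕ) : ∀ᶠ k : ℕ+ in (p : Filter ℕ+), K < (k : ℕ) := by
  induction K with
  | zero => exact Eventually.of_forall (fun k => k.pos)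
  | succ K ih =>
    rw [hp]
    filter_upwards [ih] with l hl
    refine Eventually.of_forall (fun k => ?_)
    have := k.pos
    push_cast
    omega

end Pool.Agent.H638.GP
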