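import Pool.Agent.H638.GP.Lim

set_option autoImplicit false

/-! Sequences with all products of sums in a large set. -/

namespace Pool.Agent.H638.GP

open Filter Topology

/-- the step on finite sets of pairs -/
def stp (T : Finset (ℕ × ℕ)) (x : ℕ) : Finset (ℕ × ℕ) :=
  (T ∪ T.image (fun a => (a.1, a.2 + x))) ∪ T.image (fun a => (a.1 * x, 0))

/-- the invariant -/
def Inv (p : Ultrafilter ℕ+) (C M : ℕ → Prop) (T : Finset (ℕ × ℕ)) : Prop :=
  ∀ a ∈ T, 0 < a.1 ∧ M a.1 ∧ ∀ᶠ k : ℕ+ in (p : Filter ℕ+), C (a.1 * (a.2 + (k : ℕ)))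

variable {p : Ultrafilter ℕ+}

theorem Inv.step (hp : Idem p) {C M : ℕ → Prop}
    (hMm : ∀ a b, 0 < a → 0 < b → M a → M b → M (a * b))
    (hC : ∀ l : ℕ, 0 < l → M l → ∀ᶠ k : ℕ+ in (p : Filter ℕ+), C (l * (k : ℕ)))
    (hCM : ∀ᶠ k : ℕ+ in (p : Filter ℕ+), M (k : ℕ)) {T : Finset (ℕ × ℕ)} (hT : Inv p C M T)
    (K : ℕ) : ∃ x : ℕ, K < x ∧ M x ∧ (∀ a ∈ T, C (a.1 * (a.2 + x))) ∧ Inv p C M (stp T x) := by
  classical
  have h1 : ∀ᶠ l : ℕ+ in (p : Filter ℕ+), ∀ a ∈ T, C (a.1 * (a.2 + (l : ℕ))) ∧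
      ∀ᶠ k : ℕ+ in (p : Filter ℕ+), C (a.1 * (a.2 + (l : ℕ) + (k : ℕ))) := by
    rw [eventually_all_finset]
    intro a ha
    have h2 := (hT a ha).2.2
    have h3 := (hp _).1 h2
    filter_upwards [h2, h3] with l h4 h5
    refine ⟨h4, ?_⟩
    filter_upwards [h5] with k h6
    rw [PNat.add_coe] at h6
    rwa [add_assoc]
  obtain ⟨x, hx1, hx2, hx3⟩ := ((hp.large K).and (hCM.and h1)).exists
  refine ⟨x, hx1, hx2, fun a ha => (hx3 a ha).1, ?_⟩
  intro b hb
  unfold stp at hb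
  rw [Finset.mem_union, Finset.mem_union, Finset.mem_image, Finset.mem_image] at hb
  rcases hb with (hb | ⟨a, ha, rfl⟩) | ⟨a, ha, rfl⟩
  · exact hT b hb
  · exact ⟨(hT a ha).1, (hT a ha).2.1, (hx3 a ha).2⟩
  · have hpos : 0 < a.1 * (x : ℕ) := Nat.mul_pos (hT a ha).1 x.pos
    have hMx := hMm _ _ (hT a ha).1 x.pos (hT a ha).2.1 hx2
    refine ⟨hpos, hMx, ?_⟩
    filter_upwards [hC _ hpos hMx] with k hk
    simpa using hk

theorem exists_seq (hp : Idem p) {C M : ℕ → Prop} (hM1 : M 1)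
    (hMm : ∀ a b, 0 < a → 0 < b → M a → M b → M (a * b))
    (hC : ∀ l : ℕ, 0 < l → M l → ∀ᶠ k : ℕ+ in (p : Filter ℕ+), C (l * (k : ℕ)))
    (hCM : ∀ᶠ k : ℕ+ in (p : Filter ℕ+), M (k : ℕ)) (K : ℕ) :
    ∃ x : ℕ → ℕ, StrictMono x ∧ K < x 0 ∧ (∀ n, M (x n)) ∧ ∀ F G : Finset ℕ, G.Nonempty →
      (∀ i ∈ F, ∀ j ∈ G, i < j) → C ((∏ i ∈ F, x i) * ∑ j ∈ G, x j) := by
  classical
  have h0 : Inv p C M {(1, 0)} := by
    intro a ha
    rw [Finset.mem_singleton] at ha
    subst ha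
    refine ⟨one_pos, hM1, ?_⟩
    filter_upwards [hC 1 one_pos hM1] with k hk
    simpa using hk
  have step : ∀ s : {s : Finset (ℕ × ℕ) × ℕ // Inv p C M s.1},
      ∃ s' : {s : Finset (ℕ × ℕ) × ℕ // Inv p C M s.1}, s.1.2 < s'.1.2 ∧ M s'.1.2 ∧
        (∀ a ∈ s.1.1, C (a.1 * (a.2 + s'.1.2))) ∧ s'.1.1 = stp s.1.1 s'.1.2 := by
    rintro ⟨⟨T, L⟩, hT⟩
    obtain ⟨x, h1, h2, h3, h4⟩ := Inv.step hp hMm hC hCM hT L
    exact ⟨⟨(stp T x, x), h4⟩, h1, h2, h3, rfl⟩
  choose F hF1 hF2 hF3 hF4 using step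
  set st : ℕ → {s : Finset (ℕ × ℕ) × ℕ // Inv p C M s.1} :=
    fun n => F^[n] ⟨({(1, 0)}, K), h0⟩ with hst
  have hst1 : ∀ n, st (n + 1) = F (st n) := fun n => Function.iterate_succ_apply' F n _
  set x : ℕ → ℕ := fun n => (st (n + 1)).1.2 with hx
  have hT : ∀ n, (st (n + 1)).1.1 = stp (st n).1.1 (x n) := by
    intro n
    show (st (n + 1)).1.1 = stp (st n).1.1 (st (n + 1)).1.2
    rw [hst1]; exact hF4 _
  have hCx : ∀ n, ∀ a ∈ (st n).1.1, C (a.1 * (a.2 + x n)) := by
    intro n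
    show ∀ a ∈ (st n).1.1, C (a.1 * (a.2 + (st (n + 1)).1.2))
    rw [hst1]; exact hF3 _
  have key : ∀ n, ∀ A B : Finset ℕ, (∀ i ∈ A, i < n) → (∀ j ∈ B, j < n) →
      (∀ i ∈ A, ∀ j ∈ B, i < j) → (∏ i ∈ A, x i, ∑ j ∈ B, x j) ∈ (st n).1.1 := by
    intro n
    induction n with
    | zero =>
      intro A B hA hB _
      have hA' : A = ∅ := Finset.eq_empty_of_forall_notMem (fun i hi => absurd (hA i hi) (by omega))
      have hB' : B = ∅ := Finset.eq_empty_of_forall_notMem (fun i hi => absurd (hB i hi) (by omega))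
      subst hA' hB'
      simp [hst]
    | succ n ih =>
      intro A B hA hB hAB
      rw [hT n]
      unfold stp
      rw [Finset.mem_union, Finset.mem_union, Finset.mem_image, Finset.mem_image]
      by_cases hnB : n ∈ B
      · left; right
        have hA2 : ∀ i ∈ A, i < n := fun i hi => hAB i hi n hnB
        have hB2 : ∀ j ∈ B.erase n, j < n := by
          intro j hj
          rw [Finset.mem_erase] at hj
          have := hB j hj.2
          omega
        refine ⟨_, ih A (B.erase n) hA2 hB2 (fun i hi j hj => hAB i hi j (Finset.mem_of_mem_erase hj)),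
          ?_⟩
        rw [Finset.sum_erase_add B x hnB]
      · by_cases hnA : n ∈ A
        · right
          have hB' : B = ∅ := by
            refine Finset.eq_empty_of_forall_notMem (fun j hj => ?_)
            have h1 := hAB n hnA j hj
            have h2 := hB j hj
            omega
          subst hB'
          refine ⟨_, ih (A.erase n) ∅ ?_ (by simp) (by simp), ?_⟩
          · intro i hi
            rw [Finset.mem_erase] at hi
            have := hA i hi.2
            omega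
          · rw [Finset.prod_erase_mul A x hnA]; simp
        · left; left
          refine ih A B ?_ ?_ hAB
          · intro i hi
            have h1 := hA i hi
            have h2 : i ≠ n := fun h => hnA (h ▸ hi)
            omega
          · intro j hj
            have h1 := hB j hj
            have h2 : j ≠ n := fun h => hnB (h ▸ hj)
            omega
  refine ⟨x, strictMono_nat_of_lt_succ (fun n => ?_), ?_, fun n => ?_, ?_⟩
  · show (st (n + 1)).1.2 < (st (n + 1 + 1)).1.2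
    rw [hst1 (n + 1)]; exact hF1 _
  · show K < (st (0 + 1)).1.2
    rw [hst1 0]; exact hF1 (st 0)
  · show M (st (n + 1)).1.2
    rw [hst1]; exact hF2 _
  · intro A B hB hAB
    set j := B.max' hB with hj
    have hjB : j ∈ B := B.max'_mem hB
    have h1 := key j A (B.erase j) (fun i hi => hAB i hi j hjB)
      (fun i hi => by
        rw [Finset.mem_erase] at hi
        exact lt_of_le_of_ne (B.le_max' i hi.2) hi.1)
      (fun i hi l hl => hAB i hi l (Finset.mem_of_mem_erase hl))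
    have h2 := hCx j _ h1
    simp only at h2
    rwa [Finset.sum_erase_add B x hjB] at h2

end Pool.Agent.H638.GP
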